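import Mathlib

set_option autoImplicit false

namespace Pool.Agent.Results.MP_f92aba_nt.FactRel

theorem result :
    ∃ T S : Finset ℕ, (∀ t ∈ T, 2 ≤ t) ∧ (∀ s ∈ S, 2 ≤ s) ∧ T.Nonempty ∧ S.Nonempty ∧
      Disjoint T S ∧ T.card ≠ S.card ∧
      ∏ t ∈ T, ((t.factorial : ℚ) / (t : ℚ) ^ t) = ∏ s ∈ S, ((s.factorial : ℚ) / (s : ℚ) ^ s) := by
  refine ⟨{4, 10, 12, 15, 18, 21, 32}, {3, 5, 6, 7, 8, 14, 16, 20, 36}, by decide, by decide,
    by decide, by decide, by decide, by decide, ?_⟩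
  decide +kernel

end Pool.Agent.Results.MP_f92aba_nt.FactRel
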